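import Pool.Agent.Lib_MP_4270a5_nt.BridgeB

/-!
# Small points of `F(Γ_div)`: the exponents at finitely many primes are bounded

Let `Γ` be a finitely generated group of nonzero algebraic numbers, `Γ_div` its division group, `F` a
number field and `S` a finite set of primes. We show that there are an integer `N₀` all of whose prime
factors are in `S` and a constant `c > 0` such that every nonzero `α ∈ F(Γ_div)` of height less than `c`
is a product of an element of `Γ_div` and an element of
`F(μ_∞, Γ^{1/(N₀ n)} : n not divisible by any prime in S)`.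

For the proof see part (1) of the outline in `BoundedLength.lean`: the descent at a prime `p` is
uniform in the prime-to-`p` parts of the exponents.
-/

open Polynomial IntermediateField

namespace Pool.Agent.Results.MP_4270a5_nt.ExponentReduction

/-- The absolute logarithmic Weil height of an algebraic number `α`: `a₀` is the least common
denominator of the coefficients of the minimal polynomial of `α` over `ℚ` (so it is the leading
coefficient of the primitive integral minimal polynomial), and `z` runs over its complex roots. -/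
noncomputable def weilHeight (α : ℂ) : ℝ :=
  (Real.log (((Finset.range ((minpoly ℚ α).natDegree + 1)).lcm
      (fun i => ((minpoly ℚ α).coeff i).den) : ℕ) : ℝ)
    + (((minpoly ℚ α).map (algebraMap ℚ ℂ)).roots.map (fun z => Real.log (max 1 ‖z‖))).sum)
  / ((minpoly ℚ α).natDegree : ℝ)

/-- `α` is an element of the division group of `Γ`. -/
def InDiv (Γ : Subgroup ℂˣ) (α : ℂ) : Prop :=
  ∃ n : ℕ, 0 < n ∧ ∃ g ∈ Γ, α ^ n = (g : ℂ)

/-- **Small points of `F(Γ_div)`: reduction of the exponents at the primes of `S`.** -/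
theorem result (F : IntermediateField ℚ ℂ) (hF : FiniteDimensional ℚ F) (Γ : Subgroup ℂˣ) (hΓ : Γ.FG)
    (halg : ∀ g ∈ Γ, IsAlgebraic ℚ (g : ℂ)) (S : Finset ℕ) (hS : ∀ p ∈ S, p.Prime) :
    ∃ N₀ : ℕ, 0 < N₀ ∧ N₀.primeFactors ⊆ S ∧ ∃ c : ℝ, 0 < c ∧
      ∀ α : ℂ, α ∈ F ⊔ IntermediateField.adjoin ℚ {z : ℂ | InDiv Γ z} → α ≠ 0 → weilHeight α < c →
        ∃ β γ : ℂ, α = β * γ ∧ InDiv Γ γ ∧
          β ∈ F ⊔ IntermediateField.adjoin ℚ ({z : ℂ | ∃ n : ℕ, 0 < n ∧ z ^ n = 1} ∪
            {z : ℂ | ∃ n : ℕ, 0 < n ∧ (∀ p ∈ S, ¬ p ∣ n) ∧ ∃ g ∈ Γ, z ^ (N₀ * n) = (g : ℂ)}) :=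
  MP4270.reduce_C F Γ hΓ halg S hS

end Pool.Agent.Results.MP_4270a5_nt.ExponentReduction
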