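import Pool.Agent.Lib_MP_4270a5_u.FinD

/-!
# An absolute lower bound for the height of Kummer sums

Let `L` be a number field which contains the `N`-th roots of unity and let `α = b_1 g_1 + … + b_k g_k`
with `b_i ∈ L`, `g_i^N ∈ L`. For a prime `p ∣ N` let `k_p` be the number of terms `b_i g_i` which are not
integral above `p`. We show: if `k_p ≤ 1 + p / (30000 log p)` for all primes `p ∣ N` (for instance if all terms but one
are integral above the primes which divide `N`), then `α` is zero, or a single term `c g_i` with
`c ∈ L`, or has absolute logarithmic Weil height at least `log 2 / 40320`, whatever `L`, `N`, `k` are.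

Outline of the proof. It suffices to show that `α` is an eigenvector of the `p`-part `G` of
`Gal(L(g_1, …, g_k)/L)` for every `p ∣ N`. Let `n = |G|`, `X` the dual group, `t_χ` the `χ`-component of `α`.
The matrix `T = (t_{φ/ψ})` is conjugate to `diag(τ α)` by the character table. (1) Cauchy-Binet at the
archimedean places and at the finite places which do not divide `p`, and at the places above `p` a
`p`-adic form of Chebotarev's theorem on minors (a sum of few characters of a `p`-group is almost never
small), the product formula for each nonvanishing minor and the inequality between the arithmetic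
and the geometric mean show that for every set of rows at most `exp(n (4 h(α) + ε))` minors with these
rows do not vanish. (2) So for a nonvanishing minor the complementary block has rank at most
`d = n (4 h(α) + ε) / log 2`, and conjugation by `T` maps coordinate projections to coordinate projections
up to rank `4d`. (3) The resulting map of `(ℤ/2)^X` is an almost homomorphism of rings which almost
commutes with translations; a majority decoding shows that it is close to a translation. (4) Hence `T`
times a translation almost commutes with all coordinate projections, so it is a diagonal matrix up to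
small rank, and a scalar matrix by translation invariance. (5) So `τ α = δ χ(τ)` for more than half of
the `τ ∈ G`, and then `τ α = χ(τ) α` for all `τ`.
-/

open Polynomial IntermediateField

namespace Pool.Agent.Results.MP_4270a5_nt.KummerSums

/-- The absolute logarithmic Weil height of an algebraic number `α`: `a₀` is the least common
denominator of the coefficients of the minimal polynomial of `α` over `ℚ` (so it is the leading
coefficient of the primitive integral minimal polynomial), and `z` runs over its complex roots. -/
noncomputable def weilHeight (α : ℂ) : ℝ :=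
  (Real.log (((Finset.range ((minpoly ℚ α).natDegree + 1)).lcm
      (fun i => ((minpoly ℚ α).coeff i).den) : ℕ) : ℝ)
    + (((minpoly ℚ α).map (algebraMap ℚ ℂ)).roots.map (fun z => Real.log (max 1 ‖z‖))).sum)
  / ((minpoly ℚ α).natDegree : ℝ)

/-- **Kummer sums.** Let `L` be a number field which contains the `N`-th roots of unity,
`b_i ∈ L`, `g_i^N ∈ L`. Suppose that for every prime `p ∣ N` there are a set `J` of at most
`1 + p / (30000 log p)` indices and an integer `m` prime to `p` such that `m b_i g_i` is an algebraic
integer for all `i ∉ J`. If `α = b_1 g_1 + … + b_k g_k ≠ 0`, then `α = c g_i` for some `i` and some `c ∈ L`, or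
`h(α) ≥ log 2 / 40320`. -/
theorem result (L : IntermediateField ℚ ℂ) (hL : FiniteDimensional ℚ L) (N k : ℕ) (hN : 0 < N)
    (hμ : ∀ z : ℂ, z ^ N = 1 → z ∈ L) (b g : Fin k → ℂ)
    (hb : ∀ i, b i ∈ L) (hg : ∀ i, g i ^ N ∈ L)
    (hp : ∀ p : ℕ, p.Prime → p ∣ N → ∃ (J : Finset (Fin k)) (m : ℕ),
      (J.card : ℝ) ≤ 1 + p / (30000 * Real.log p) ∧ m.Coprime p ∧
      ∀ i, i ∉ J → IsIntegral ℤ ((m : ℂ) * (b i * g i)))
    (α : ℂ) (hα : α = ∑ i, b i * g i) (hα0 : α ≠ 0) :
    (∃ i, ∃ c ∈ L, α = c * g i) ∨ Real.log 2 / 40320 ≤ weilHeight α := by
  by_cases h : ∃ i, ∃ c ∈ L, α = c * g i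
  · exact Or.inl h
  · right
    push Not at h
    refine MP4270U.fin_D L N k hN hμ b g hb hg (fun p hpp hpN => ?_) α hα hα0 h
    obtain ⟨J, m, hJ, hm, hint⟩ := hp p hpp hpN
    have hlog : 0 < Real.log p := Real.log_pos (by exact_mod_cast hpp.one_lt)
    have h30 : 0 < 30000 * Real.log p := by positivity
    refine ⟨J, m, ?_, hm, hint⟩
    rcases Nat.eq_zero_or_pos J.card with h0 | h0
    · rw [h0]
      simp
    · have h1 : ((J.card - 1 : ℕ) : ℝ) ≤ p / (30000 * Real.log p) := by
        rw [Nat.cast_sub h0, Nat.cast_one]
        linarith
      rw [le_div_iff₀ h30] at h1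
      calc 30000 * ((J.card - 1 : ℕ) : ℝ) * Real.log p
          = ((J.card - 1 : ℕ) : ℝ) * (30000 * Real.log p) := by ring
        _ ≤ p := h1

end Pool.Agent.Results.MP_4270a5_nt.KummerSums
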