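import Pool.Agent.Lib_MP_4270a5_u.RFinF

/-!
# Rémond's conjecture for all elements of the real radical fields `F(δ^{1/N})`

Let `Γ` be a finitely generated group of nonzero algebraic numbers and `Γ_div` its division group. We show
that for a real number field `F` and real `Γ` there is `c > 0` such that EVERY element `α` of one of the
fields `F(g)`, `g` real, `g^N ∈ Γ` (`N ≥ 1` arbitrary), is zero, or in `Γ_div`, or has height at least
`c`; for `Γ = ⟨a⟩`, `a > 0`, this is the whole real field generated over `F` by the roots `a^{1/N}`. The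
general statement is for the fields `F(μ_m, Γ^{1/n}, g)` without `p`-th roots of unity for the primes `p` which
divide `N`, and an element of the ring generated by `Γ_div` and the `S`-integral elements of the coefficient
field may be added. The absolute form has the lower bound `log 2 / 40320`.

The proof. Let `α = ∑ b_j g^j` and let `T` be the group matrix of the components of `α` for the subgroup of
`p`-power order of the Kummer group (of order `n = p^a`). By the argument of `KummerSums.lean` it is enough to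
bound all minors of `T` at the places above `p` by `e^{o(n)} ∏ max(1, |α_τ|)`. There `α_τ = F(ζ x)`, with a
polynomial `F` over the maximal unramified extension `U` of `ℚ_p` and `x^n = γ ∈ U` (this is where the absence of
`p`-th roots of unity is used). The lattice of the polynomials which are integral at all roots of
`X^n - γ` has an explicit basis: if `γ` is not a `p`-th power then a translate of `X^n - γ` is an Eisenstein
polynomial, and if `γ = γ'^p` then `X^n - γ` is `X^{n/p} - γ'` times such a polynomial; so the lattice has index at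
most `p^{n/(p-1)}` over the integral polynomials. Cramer's rule for `T_F = T_K T_H⁻¹`, `H = (1 + c F)⁻¹`, `K = F H`, with
`|1 + c F(ζ x)| = max(1, |F(ζ x)|)`, gives the bound for all minors, with factor `p^{n/(p-1)}`.
-/

open Polynomial IntermediateField

namespace Pool.Agent.Results.MP_4270a5_nt.RadicalFields

/-- The absolute logarithmic Weil height of an algebraic number `α`: `a₀` is the least common
denominator of the coefficients of the minimal polynomial of `α` over `ℚ` (so it is the leading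
coefficient of the primitive integral minimal polynomial), and `z` runs over its complex roots. -/
noncomputable def weilHeight (α : ℂ) : ℝ :=
  (Real.log (((Finset.range ((minpoly ℚ α).natDegree + 1)).lcm
      (fun i => ((minpoly ℚ α).coeff i).den) : ℕ) : ℝ)
    + (((minpoly ℚ α).map (algebraMap ℚ ℂ)).roots.map (fun z => Real.log (max 1 ‖z‖))).sum)
  / ((minpoly ℚ α).natDegree : ℝ)

/-- `α` is an element of the division group of `Γ`. -/
def InDiv (Γ : Subgroup ℂˣ) (α : ℂ) : Prop :=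
  ∃ n : ℕ, 0 < n ∧ ∃ g ∈ Γ, α ^ n = (g : ℂ)

/-- The field `F(μ_∞, Γ^{1/n} : n an S-number)`. -/
noncomputable def coefField (F : IntermediateField ℚ ℂ) (Γ : Subgroup ℂˣ) (S : Finset ℕ) :
    IntermediateField ℚ ℂ :=
  F ⊔ IntermediateField.adjoin ℚ ({z : ℂ | ∃ n : ℕ, 0 < n ∧ z ^ n = 1} ∪
    {z : ℂ | ∃ n : ℕ, 0 < n ∧ n.primeFactors ⊆ S ∧ ∃ g ∈ Γ, z ^ n = (g : ℂ)})

/-- The elements `z` of `coefField F Γ S` such that `s z` is an algebraic integer for an `S`-number `s`. -/
def sIntegers (F : IntermediateField ℚ ℂ) (Γ : Subgroup ℂˣ) (S : Finset ℕ) : Set ℂ :=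
  {z | z ∈ coefField F Γ S ∧ ∃ s : ℕ, 0 < s ∧ s.primeFactors ⊆ S ∧ IsIntegral ℤ ((s : ℂ) * z)}

/-- The field `F(μ_m, Γ^{1/n}, g)`. -/
noncomputable def radicalField (F : IntermediateField ℚ ℂ) (Γ : Subgroup ℂˣ) (m n : ℕ) (g : ℂ) :
    IntermediateField ℚ ℂ :=
  F ⊔ IntermediateField.adjoin ℚ ({z : ℂ | z ^ m = 1} ∪ {z : ℂ | ∃ γ ∈ Γ, z ^ n = (γ : ℂ)}) ⊔
    IntermediateField.adjoin ℚ {g}

/-- **Rémond's conjecture for simple radical fields.**

(a) Let `Γ` be a finitely generated group of nonzero real algebraic numbers and `F` a real number field.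
There is `c > 0` such that for all real `g ∈ Γ_div`, all `A ∈ F(g)` and all `β ∈ ℤ[Γ_div]`, `α = A + β` is zero,
or in `Γ_div`, or `h(α) ≥ c`.

(b) Let `Γ` be a finitely generated group of nonzero algebraic numbers, `F` a number field and `S` a finite set
of primes. There is `c > 0` such that the following holds. Let `m, n, N ≥ 1`, `n` an `S`-number, `g^N ∈ Γ`, and suppose
that `E = F(μ_m, Γ^{1/n}, g)` contains no primitive `p`-th root of unity for the primes `p ∣ N` outside `S`. Let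
`A ∈ E` and let `β` be in the ring generated by `Γ_div` and the `S`-integral elements of
`F(μ_∞, Γ^{1/k} : k an S-number)`. Then `α = A + β` is zero, or in `Γ_div`, or `h(α) ≥ c`.

(c) Let `L` be a number field, `g ≠ 0`, `g^N ∈ L`. Suppose that for every prime `p ∣ N`: `30000 log p ≤ p`, `p` does not
divide the discriminant of `L`, `g` is a unit at all places above `p` (`m g` and `m g⁻¹` are algebraic integers for an
integer `m` prime to `p`), and `L(g)` contains no primitive `p`-th root of unity. Then every nonzero `α ∈ L(g)` is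
`c g^j` with `c ∈ L(μ_N)`, or `h(α) ≥ log 2 / 40320`. -/
theorem result :
    (∀ Γ : Subgroup ℂˣ, Γ.FG → (∀ γ ∈ Γ, IsAlgebraic ℚ (γ : ℂ)) → (∀ γ ∈ Γ, (γ : ℂ).im = 0) →
      ∀ F : IntermediateField ℚ ℂ, FiniteDimensional ℚ F → (∀ x ∈ F, x.im = 0) →
      ∃ c : ℝ, 0 < c ∧ ∀ g : ℂ, g.im = 0 → InDiv Γ g →
        ∀ A ∈ F ⊔ IntermediateField.adjoin ℚ {g}, ∀ β ∈ Subring.closure {z : ℂ | InDiv Γ z},
        ∀ α : ℂ, α = A + β → α ≠ 0 → ¬ InDiv Γ α → c ≤ weilHeight α) ∧
    (∀ Γ : Subgroup ℂˣ, Γ.FG → (∀ γ ∈ Γ, IsAlgebraic ℚ (γ : ℂ)) →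
      ∀ F : IntermediateField ℚ ℂ, FiniteDimensional ℚ F → ∀ S : Finset ℕ,
      ∃ c : ℝ, 0 < c ∧ ∀ m n N : ℕ, 0 < m → 0 < n → n.primeFactors ⊆ S → 0 < N →
        ∀ g : ℂ, (∃ γ ∈ Γ, g ^ N = (γ : ℂ)) →
        (∀ p : ℕ, p.Prime → p ∣ N → p ∉ S → ∀ z ∈ radicalField F Γ m n g, ¬ IsPrimitiveRoot z p) →
        ∀ A ∈ radicalField F Γ m n g,
        ∀ β ∈ Subring.closure (sIntegers F Γ S ∪ {z : ℂ | InDiv Γ z}),
        ∀ α : ℂ, α = A + β → α ≠ 0 → ¬ InDiv Γ α → c ≤ weilHeight α) ∧
    (∀ (L : IntermediateField ℚ ℂ) (_ : NumberField L) (N : ℕ) (g : ℂ), 0 < N → g ≠ 0 → g ^ N ∈ L →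
      (∀ p : ℕ, p.Prime → p ∣ N → 30000 * Real.log p ≤ p ∧ ¬ (p : ℤ) ∣ NumberField.discr L ∧
        (∃ m : ℕ, m.Coprime p ∧ IsIntegral ℤ ((m : ℂ) * g) ∧ IsIntegral ℤ ((m : ℂ) * g⁻¹)) ∧
        ∀ z ∈ L ⊔ IntermediateField.adjoin ℚ {g}, ¬ IsPrimitiveRoot z p) →
      ∀ α ∈ L ⊔ IntermediateField.adjoin ℚ {g}, α ≠ 0 →
        (∃ c ∈ L ⊔ IntermediateField.adjoin ℚ {z : ℂ | z ^ N = 1}, ∃ j : ℕ, α = c * g ^ j) ∨
          Real.log 2 / 40320 ≤ weilHeight α) := by
  have hroot : ∀ {p : ℕ} (_ : p.Prime) {z : ℂ}, ¬ IsPrimitiveRoot z p → z ^ p = 1 → z = 1 := by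
    intro p hp z hz hz1
    by_contra hne
    have : Fact p.Prime := ⟨hp⟩
    exact hz (IsPrimitiveRoot.iff_orderOf.2 (orderOf_eq_prime hz1 hne))
  refine ⟨?_, ?_, ?_⟩
  · intro Γ hΓ halg hreal F hF hFr
    exact MP4270U.fin_real Γ hΓ halg hreal F hFr
  · intro Γ hΓ halg F hF S
    obtain ⟨c, hc, H⟩ := MP4270U.fin_P Γ hΓ halg F S
    refine ⟨c, hc, ?_⟩
    intro m n N hm hn hnS hN g hg hp A hA β hβ α hα hα0 hne
    exact H m n N hm hn hnS hN g hg
      (fun p hpp hpN hpS z hz hz1 => hroot hpp (hp p hpp hpN hpS z hz) hz1) A hA β hβ α hα hα0 hne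
  · intro L hL N g hN hg0 hg hp α hα hα0
    by_contra hcon
    rw [not_or] at hcon
    refine hcon.2 (MP4270U.fin_abs L N hN g hg0 hg ?_ α hα hα0 ?_)
    · intro p hpp hpN
      obtain ⟨h1, h2, h3, h4⟩ := hp p hpp hpN
      exact ⟨h1, h2, h3, fun z hz hz1 => hroot hpp (h4 z hz) hz1⟩
    · intro c hc j h
      exact hcon.1 ⟨c, hc, j, h⟩

end Pool.Agent.Results.MP_4270a5_nt.RadicalFields
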