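import Pool.Agent.Lib_MP_4270a5_u.FinH

/-!
# Rémond's conjecture for sums of any length, few terms of which have denominators at the exponents

Let `Γ` be a finitely generated group of nonzero algebraic numbers, `Γ_div` its division group, `F` a
number field and `S` a finite set of primes. We show that for every `k₀` there is `c > 0` such that
`α = b_1 g_1 + … + b_k g_k`, `b_j ∈ F(μ_∞, Γ^{1/n} : n an S-number)`, `g_j^N ∈ Γ`, is zero, or in `Γ_div`, or has
height at least `c`, provided that for every prime `p ∣ N` outside `S` at most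
`max (k₀, p / (30000 log p))` of the terms are not integral above `p`; there is no bound for `k` and `N`.
Every element of `ℚ(Γ_div)` is such a sum with rational `b_j`, and Rémond's conjecture is the statement
without the condition for the primes `p`.

The proof combines the absolute bound for Kummer sums (see `KummerSums.lean` for an outline), applied
over the number field which is generated by `F`, the `b_j`, `g_j^N` and the `N`-th roots of unity, with the
theorem for one term; the primes in `S` and the small primes are absorbed in the coefficients.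
-/

open Polynomial IntermediateField

namespace Pool.Agent.Results.MP_4270a5_nt.UniformSums

/-- The absolute logarithmic Weil height of an algebraic number `α`: `a₀` is the least common
denominator of the coefficients of the minimal polynomial of `α` over `ℚ` (so it is the leading
coefficient of the primitive integral minimal polynomial), and `z` runs over its complex roots. -/
noncomputable def weilHeight (α : ℂ) : ℝ :=
  (Real.log (((Finset.range ((minpoly ℚ α).natDegree + 1)).lcm
      (fun i => ((minpoly ℚ α).coeff i).den) : ℕ) : ℝ)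
    + (((minpoly ℚ α).map (algebraMap ℚ ℂ)).roots.map (fun z => Real.log (max 1 ‖z‖))).sum)
  / ((minpoly ℚ α).natDegree : ℝ)

/-- `α` is an element of the division group of `Γ`. -/
def InDiv (Γ : Subgroup ℂˣ) (α : ℂ) : Prop :=
  ∃ n : ℕ, 0 < n ∧ ∃ g ∈ Γ, α ^ n = (g : ℂ)

/-- The field `F(μ_∞, Γ^{1/n} : n an S-number)`. -/
noncomputable def coefField (F : IntermediateField ℚ ℂ) (Γ : Subgroup ℂˣ) (S : Finset ℕ) :
    IntermediateField ℚ ℂ :=
  F ⊔ IntermediateField.adjoin ℚ ({z : ℂ | ∃ n : ℕ, 0 < n ∧ z ^ n = 1} ∪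
    {z : ℂ | ∃ n : ℕ, 0 < n ∧ n.primeFactors ⊆ S ∧ ∃ g ∈ Γ, z ^ n = (g : ℂ)})

/-- The elements `z` of `coefField F Γ S` such that `s z` is an algebraic integer for an `S`-number `s`. -/
def sIntegers (F : IntermediateField ℚ ℂ) (Γ : Subgroup ℂˣ) (S : Finset ℕ) : Set ℂ :=
  {z | z ∈ coefField F Γ S ∧ ∃ s : ℕ, 0 < s ∧ s.primeFactors ⊆ S ∧ IsIntegral ℤ ((s : ℂ) * z)}

/-- **Rémond's conjecture for sums of any length.** Let `Γ` be a finitely generated group of nonzero
algebraic numbers, `F` a number field, `S` a finite set of primes and `k₀` a natural number. There is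
`c > 0` such that the following holds.

(a) Let `b_j ∈ F(μ_∞, Γ^{1/n} : n an S-number)`, `g_j^N ∈ Γ` for `j = 1, …, k`, and suppose that for every prime
`p ∣ N` outside `S` there are a set `J` of at most `max (k₀, p / (30000 log p))` indices and an integer `m`
prime to `p` such that `m b_j g_j` is an algebraic integer for all `j ∉ J`. Then
`α = b_1 g_1 + … + b_k g_k` is zero, or in `Γ_div`, or `h(α) ≥ c` (for all `k` and `N`).

(b) Let `β` be an element of the ring generated by `Γ_div` and the `S`-integral elements of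
`F(μ_∞, Γ^{1/n} : n an S-number)`, and let `b_j` be arbitrary elements of this field, `g_j ∈ Γ_div` for
`j = 1, …, k₀`. Then `α = β + b_1 g_1 + … + b_{k₀} g_{k₀}` is zero, or in `Γ_div`, or `h(α) ≥ c`. -/
theorem result (Γ : Subgroup ℂˣ) (hΓ : Γ.FG) (halg : ∀ g ∈ Γ, IsAlgebraic ℚ (g : ℂ))
    (F : IntermediateField ℚ ℂ) (hF : FiniteDimensional ℚ F) (S : Finset ℕ) (k₀ : ℕ) :
    ∃ c : ℝ, 0 < c ∧
      (∀ (k N : ℕ), 0 < N → ∀ b g : Fin k → ℂ,
        (∀ j, b j ∈ coefField F Γ S) → (∀ j, ∃ γ ∈ Γ, g j ^ N = (γ : ℂ)) →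
        (∀ p : ℕ, p.Prime → p ∣ N → p ∉ S → ∃ (J : Finset (Fin k)) (m : ℕ),
          (J.card : ℝ) ≤ max (k₀ : ℝ) (p / (30000 * Real.log p)) ∧ m.Coprime p ∧
          ∀ j, j ∉ J → IsIntegral ℤ ((m : ℂ) * (b j * g j))) →
        ∀ α : ℂ, α = ∑ j, b j * g j → α ≠ 0 → ¬ InDiv Γ α → c ≤ weilHeight α) ∧
      (∀ β ∈ Subring.closure (sIntegers F Γ S ∪ {z : ℂ | InDiv Γ z}),
        ∀ b g : Fin k₀ → ℂ, (∀ j, b j ∈ coefField F Γ S) → (∀ j, InDiv Γ (g j)) →
        ∀ α : ℂ, α = β + ∑ j, b j * g j → α ≠ 0 → ¬ InDiv Γ α → c ≤ weilHeight α) := by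
  obtain ⟨c₁, hc₁, h₁⟩ := MP4270U.fin_G Γ hΓ halg F S k₀
  obtain ⟨c₂, hc₂, h₂⟩ := MP4270U.fin_H Γ hΓ halg F S k₀
  refine ⟨min c₁ c₂, lt_min hc₁ hc₂, ?_, ?_⟩
  · intro k N hN b g hb hg hp α hα hα0 hαΓ
    exact (min_le_left _ _).trans (h₁ k N hN b g hb hg hp α hα hα0 hαΓ)
  · intro β hβ b g hb hg α hα hα0 hαΓ
    exact (min_le_right _ _).trans (h₂ β hβ b g hb hg α hα hα0 hαΓ)

end Pool.Agent.Results.MP_4270a5_nt.UniformSums
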